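import Pool.Agent.EGF.StmtsS
import Pool.Agent.Helper71_EGF.FN8

/-! Squad EGF, row FN4: the theorem (as FN7 of helper44). -/

set_option autoImplicit false

open Finset Filter

namespace Pool.Agent.EGF.H76

/-- **FN4** -/
theorem fn4 (ma7 : Ma4Stmt) (rd3 : Rd3Stmt) : Fn4Stmt := by
  intro p hp ε hε
  obtain ⟨θ, hθ⟩ : ∃ θ : ℝ, θ = min (ε / 2) 1 := ⟨_, rfl⟩
  have hθ0 : 0 < θ := by
    rw [hθ]
    exact lt_min (by linarith) one_pos
  have hθ1 : θ ≤ 1 := by
    rw [hθ]
    exact min_le_right _ _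
  have hθ2 : θ ≤ ε / 2 := by
    rw [hθ]
    exact min_le_left _ _
  obtain ⟨k₁, hk₁⟩ := ma7 θ hθ0 hθ1
  have hp0 : (0 : ℝ) < 2 * ((p : ℝ) + 1) := by positivity
  have hcast : Tendsto (fun k : ℕ => (k : ℝ)) atTop atTop := tendsto_natCast_atTop_atTop
  have hev := (H71.log_lin (ε / (2 * ((p : ℝ) + 1))) (div_pos hε hp0)).and
    (eventually_ge_atTop (1 : ℝ))
  obtain ⟨k₀, hk₀⟩ := eventually_atTop.mp (hcast.eventually hev)
  refine ⟨max k₀ k₁, fun k hk n hn => ?_⟩
  obtain ⟨hA, hE⟩ := hk₀ k ((le_max_left _ _).trans hk)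
  have hk0 : (0 : ℝ) < k := by linarith
  have h2k : (0 : ℝ) < 2 * k := by positivity
  -- the basic inequality
  have hbase : ((p : ℝ) + 1) * Real.log (2 * k) ≤ ε * k / 2 := by
    have h2 : (0 : ℝ) < (p : ℝ) + 1 := by positivity
    have h3 := mul_le_mul_of_nonneg_left hA h2.le
    have h4 : ((p : ℝ) + 1) * (ε / (2 * ((p : ℝ) + 1)) * k) = ε * k / 2 := by
      field_simp
    rwa [h4] at h3
  have hlog0 : Real.log 2 ≤ Real.log (2 * k) := Real.log_le_log (by norm_num) (by linarith)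
  have hl2p : 0 < Real.log 2 := Real.log_pos (by norm_num)
  have hεk : 0 < ε * k := mul_pos hε hk0
  by_contra hcon
  unfold Forces at hcon
  push Not at hcon
  obtain ⟨c, hsym, hc⟩ := hcon
  have hc' : ∀ S : Finset (Fin n), S.card = p → p - 1 ≤ (pal c S).card := by
    intro S hS
    have h1 := hc S hS
    omega
  -- the number of vertices is large
  have hbig : (2 : ℝ) * (2 * k) ^ p ≤ n := by
    refine le_trans ?_ hn
    have h1 : (2 : ℝ) * (2 * k) ^ p = Real.exp (Real.log 2 + p * Real.log (2 * k)) := by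
      rw [Real.exp_add, Real.exp_log (by norm_num), mul_comm (p : ℝ), Real.exp_mul,
        Real.exp_log h2k, Real.rpow_natCast]
    rw [h1]
    apply Real.exp_le_exp.mpr
    nlinarith
  have hcardV : 2 * (2 * k) ^ p ≤ Fintype.card (Fin n) := by
    rw [Fintype.card_fin]
    exact_mod_cast hbig
  obtain ⟨U, hU, hUq⟩ := rd3 (Fin n) k c p hsym (by omega) hc' hcardV
  rw [Fintype.card_fin] at hU
  have hn0 : (0 : ℝ) < n := lt_of_lt_of_le (Real.exp_pos _) hn
  have hUR : (n : ℝ) ≤ (2 * k) ^ p * U.card := by exact_mod_cast hU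
  have hU0 : (0 : ℝ) < U.card := by
    by_contra hneg
    have h1 : (U.card : ℝ) = 0 := le_antisymm (not_lt.mp hneg) (Nat.cast_nonneg _)
    rw [h1, mul_zero] at hUR
    linarith
  have hlogn : ε * k ≤ Real.log n := by
    rw [Real.le_log_iff_exp_le hn0]
    exact hn
  have hlogU : Real.log n ≤ p * Real.log (2 * k) + Real.log U.card := by
    have h1 := Real.log_le_log hn0 hUR
    rwa [Real.log_mul (by positivity) hU0.ne', Real.log_pow] at h1
  refine hk₁ k ((le_max_right _ _).trans hk) (Fin n) c U hsym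
    (H71.pal_three hsym fun S hS h3 => ?_) (H23.pal_four hsym fun S hS h4 => ?_) ?_
  · exact hUq 3 le_rfl (by omega) S hS h3
  · exact hUq 4 (by norm_num) (by omega) S hS h4
  · have h1 : (p : ℝ) * Real.log (2 * k) ≤ ((p : ℝ) + 1) * Real.log (2 * k) := by
      nlinarith
    have h2 : θ * k ≤ ε / 2 * k := mul_le_mul_of_nonneg_right hθ2 hk0.le
    linarith

end Pool.Agent.EGF.H76
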