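import Pool.Agent.EGF.StmtsS

/-! Squad EGF, block S, row RCT: records with many thresholds. -/

set_option autoImplicit false

open Finset

namespace Pool.Agent.EGF.H76

variable {V : Type} [DecidableEq V] {k : ℕ}

theorem big_mono (c : V → V → Fin k) {A U : Finset V} (h : A ⊆ U) (T : ℝ) :
    big c A T ⊆ big c U T := by
  classical
  intro g hg
  unfold big at *
  rw [mem_filter] at *
  obtain ⟨_, x, hx, hT⟩ := hg
  refine ⟨mem_univ _, x, h hx, hT.trans ?_⟩
  have h1 : nb c A g x ⊆ nb c U g x := filter_subset_filter _ h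
  exact_mod_cast card_le_card h1

theorem big_sub_pal (c : V → V → Fin k) (U : Finset V) (T : ℝ) (hT : 0 < T) :
    big c U T ⊆ pal c U := by
  classical
  intro g hg
  unfold big at hg
  rw [mem_filter] at hg
  obtain ⟨_, x, hx, hT2⟩ := hg
  have h0 : (0 : ℝ) < ((nb c U g x).card : ℝ) := by linarith
  have h1 : 0 < (nb c U g x).card := by exact_mod_cast h0
  obtain ⟨y, hy⟩ := card_pos.mp h1
  unfold nb at hy
  rw [mem_filter] at hy
  unfold pal
  rw [mem_image]
  refine ⟨(x, y), ?_, hy.2.2⟩
  rw [mem_filter, mem_product]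
  exact ⟨⟨hx, hy.1⟩, fun h => hy.2.1 h.symm⟩

theorem pal_mono (c : V → V → Fin k) {A U : Finset V} (h : A ⊆ U) : pal c A ⊆ pal c U := by
  unfold pal
  exact image_subset_image (filter_subset_filter _ (product_subset_product h h))

/-- **RCT** -/
theorem rct : RctStmt := by
  classical
  intro V _ k c W I J T w θ hθ hW hpal hJ hsum
  have hWm : W ∈ W.powerset.filter (fun S => S.Nonempty) := by
    rw [mem_filter, mem_powerset]
    exact ⟨subset_rfl, hW⟩
  obtain ⟨U, hU, hmax⟩ := exists_max_image (W.powerset.filter (fun S => S.Nonempty))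
    (fun S => Real.log S.card - ∑ i ∈ J, w i * ((big c S (T i)).card : ℝ)) ⟨W, hWm⟩
  rw [mem_filter, mem_powerset] at hU
  refine ⟨U, hU.1, hU.2, ?_, ?_⟩
  · have h1 := hmax W hWm
    have h2 : ∑ i ∈ J, w i * ((big c W (T i)).card : ℝ) ≤
        (∑ i ∈ J, w i) * ((pal c W).card : ℝ) := by
      rw [sum_mul]
      refine sum_le_sum fun i hi => ?_
      refine mul_le_mul_of_nonneg_left ?_ (hJ i hi).2
      exact_mod_cast card_le_card (big_sub_pal c W (T i) (hJ i hi).1)
    have h3 : (∑ i ∈ J, w i) * ((pal c W).card : ℝ) ≤ θ / 2 * ((pal c W).card : ℝ) :=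
      mul_le_mul_of_nonneg_right hsum (Nat.cast_nonneg _)
    have h4 : 0 ≤ ∑ i ∈ J, w i * ((big c U (T i)).card : ℝ) :=
      sum_nonneg fun i hi => mul_nonneg (hJ i hi).2 (Nat.cast_nonneg _)
    linarith
  · intro i hi A hA hAn
    have hAm : A ∈ W.powerset.filter (fun S => S.Nonempty) := by
      rw [mem_filter, mem_powerset]
      exact ⟨hA.trans hU.1, hAn⟩
    have h1 := hmax A hAm
    have h2 : w i * (((big c U (T i)).card : ℝ) - ((big c A (T i)).card : ℝ)) ≤
        ∑ j ∈ J, w j * (((big c U (T j)).card : ℝ) - ((big c A (T j)).card : ℝ)) := by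
      refine single_le_sum (f := fun j => w j * (((big c U (T j)).card : ℝ) -
        ((big c A (T j)).card : ℝ))) (fun j hj => ?_) hi
      refine mul_nonneg (hJ j hj).2 (sub_nonneg.mpr ?_)
      exact_mod_cast card_le_card (big_mono c hA (T j))
    have h3 : ∑ j ∈ J, w j * (((big c U (T j)).card : ℝ) - ((big c A (T j)).card : ℝ)) =
        ∑ j ∈ J, w j * ((big c U (T j)).card : ℝ) - ∑ j ∈ J, w j * ((big c A (T j)).card : ℝ) := by
      rw [← sum_sub_distrib]
      exact sum_congr rfl fun j _ => by ring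
    linarith

end Pool.Agent.EGF.H76
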