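import Pool.Agent.EGF.StmtsS

/-! Squad EGF, block S, row SAP: choice of the scale and of the saturated pair. -/

set_option autoImplicit false

open Finset

namespace Pool.Agent.EGF.H76

variable {V : Type} [DecidableEq V] {k : ℕ}

/-- the admissible triples of the scale `δ'` -/
noncomputable def adm (U : Finset V) (δ' : ℝ) : Finset (Finset V × Finset V × Fin k) := by
  classical
  exact (U.powerset ×ˢ (U.powerset ×ˢ (univ : Finset (Fin k)))).filter fun t =>
    Disjoint t.1 t.2.1 ∧ t.1.Nonempty ∧ t.2.1.Nonempty ∧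
      (1 - δ') * Real.log U.card ≤ Real.log t.1.card ∧
      (1 - δ') * Real.log U.card ≤ Real.log t.2.1.card

theorem mem_adm (U : Finset V) (δ' : ℝ) (A B : Finset V) (e : Fin k) :
    (A, B, e) ∈ adm U δ' ↔ A ⊆ U ∧ B ⊆ U ∧ Disjoint A B ∧ A.Nonempty ∧ B.Nonempty ∧
      (1 - δ') * Real.log U.card ≤ Real.log A.card ∧
      (1 - δ') * Real.log U.card ≤ Real.log B.card := by
  classical
  unfold adm
  rw [mem_filter, mem_product, mem_product, mem_powerset, mem_powerset]
  simp only [mem_univ, and_true]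
  tauto

/-- the density -/
noncomputable def dn (c : V → V → Fin k) (t : Finset V × Finset V × Fin k) : ℝ :=
  ((prs c t.2.2 t.1 t.2.1).card : ℝ) / ((t.1.card : ℝ) * (t.2.1.card : ℝ))

omit [DecidableEq V] in
theorem dn_le_one (c : V → V → Fin k) (t : Finset V × Finset V × Fin k) : dn c t ≤ 1 := by
  unfold dn
  refine div_le_one_of_le₀ ?_ (by positivity)
  have h1 : (prs c t.2.2 t.1 t.2.1).card ≤ (t.1 ×ˢ t.2.1).card := by
    unfold prs
    exact card_le_card (filter_subset _ _)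
  rw [card_product] at h1
  exact_mod_cast h1

theorem sap_step (M : ℕ → ℝ) (R : ℕ) (q ι : ℝ) (hq : 0 < q) (hR : 1 ≤ (R : ℝ) * ι)
    (h0 : M 0 ≤ 1) (hM : q ≤ M R) : ∃ j < R, M j ≤ M (j + 1) + ι := by
  by_contra hcon
  push Not at hcon
  have key : ∀ n, n ≤ R → M n + (n : ℝ) * ι ≤ M 0 := by
    intro n
    induction n with
    | zero => intro _; simp
    | succ n ih =>
      intro hn
      have h1 := ih (by omega)
      have h2 := hcon n (by omega)
      push_cast
      nlinarith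
  have h1 := key R le_rfl
  linarith

/-- **SAP** -/
theorem sap : SapStmt := by
  classical
  intro V _ k c U δ R q ι A0 B0 e0 hδ hq hι hR hA0 hB0 hdis hA0n hB0n hlA hlB hden
  have hanti : Antitone δ := antitone_nat_of_succ_le hδ
  have hU0 : 0 ≤ Real.log U.card := Real.log_natCast_nonneg _
  have hstart : ∀ j, j ≤ R → (A0, B0, e0) ∈ adm U (δ j) := by
    intro j hj
    rw [mem_adm]
    have h1 : δ R ≤ δ j := hanti hj
    have h2 : (1 - δ j) * Real.log U.card ≤ (1 - δ R) * Real.log U.card :=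
      mul_le_mul_of_nonneg_right (by linarith) hU0
    exact ⟨hA0, hB0, hdis, hA0n, hB0n, h2.trans hlA, h2.trans hlB⟩
  have hmax : ∀ j, ∃ t : Finset V × Finset V × Fin k, j ≤ R →
      t ∈ adm U (δ j) ∧ ∀ t' ∈ adm U (δ j), dn c t' ≤ dn c t := by
    intro j
    by_cases hj : j ≤ R
    · obtain ⟨t, ht, ht2⟩ := exists_max_image (adm U (δ j)) (dn c) ⟨_, hstart j hj⟩
      exact ⟨t, fun _ => ⟨ht, ht2⟩⟩
    · exact ⟨(A0, B0, e0), fun h => absurd h hj⟩
  choose t ht using hmax
  have hq0 : q ≤ dn c (A0, B0, e0) := by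
    unfold dn
    have h1 : (0 : ℝ) < (A0.card : ℝ) * (B0.card : ℝ) := by
      have h2 : (0 : ℝ) < (A0.card : ℝ) := by exact_mod_cast card_pos.mpr hA0n
      have h3 : (0 : ℝ) < (B0.card : ℝ) := by exact_mod_cast card_pos.mpr hB0n
      positivity
    rw [le_div_iff₀ h1]
    exact hden
  have hqM : ∀ j, j ≤ R → q ≤ dn c (t j) := fun j hj =>
    hq0.trans ((ht j hj).2 _ (hstart j hj))
  obtain ⟨j, hj, hjM⟩ := sap_step (fun j => dn c (t j)) R q ι hq hR (dn_le_one c _)
    (hqM R le_rfl)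
  rcases hABe : t (j + 1) with ⟨A, B, e⟩
  have hj1 := ht (j + 1) hj
  rw [hABe, mem_adm] at hj1
  obtain ⟨⟨hA, hB, hd, hAn, hBn, hAl, hBl⟩, _⟩ := hj1
  have hpos : ∀ A' B' : Finset V, A'.Nonempty → B'.Nonempty →
      (0 : ℝ) < (A'.card : ℝ) * (B'.card : ℝ) := by
    intro A' B' hA' hB'
    have h2 : (0 : ℝ) < (A'.card : ℝ) := by exact_mod_cast card_pos.mpr hA'
    have h3 : (0 : ℝ) < (B'.card : ℝ) := by exact_mod_cast card_pos.mpr hB'
    positivity
  refine ⟨j, hj, A, B, e, dn c (A, B, e), hA, hB, hd, hAn, hBn, hAl, hBl, ?_, dn_le_one c _, ?_,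
    ?_⟩
  · rw [← hABe]
    exact hqM (j + 1) hj
  · unfold dn
    simp only
    rw [div_mul_cancel₀ _ (hpos A B hAn hBn).ne']
  · intro A' hA' B' hB' hd' hA'n hB'n hA'l hB'l
    have h1 : (A', B', e) ∈ adm U (δ j) := by
      rw [mem_adm]
      exact ⟨hA', hB', hd', hA'n, hB'n, hA'l, hB'l⟩
    have h2 := (ht j hj.le).2 _ h1
    have h3 : dn c (A', B', e) ≤ dn c (A, B, e) + ι := by
      rw [← hABe]
      linarith
    have h4 : dn c (A', B', e) * ((A'.card : ℝ) * (B'.card : ℝ)) =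
        ((prs c e A' B').card : ℝ) := by
      unfold dn
      simp only
      rw [div_mul_cancel₀ _ (hpos A' B' hA'n hB'n).ne']
    rw [← h4]
    exact mul_le_mul_of_nonneg_right h3 (hpos A' B' hA'n hB'n).le

end Pool.Agent.EGF.H76
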